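import Pool.Agent.H501.G.R_pool_sql_team_seeded_3997aac3.Q279.SC.Fin
import Pool.Agent.H501.G.R_pool_sql_team_seeded_3997aac3.Q279.SC.J.FR
import Pool.Agent.H501.G.R_pool_sql_team_seeded_3997aac3.Q279.SC.J.FRP
import Pool.Agent.H501.G.R_pool_sql_team_seeded_3997aac3.Q279.SC.J.DER
import Pool.Agent.H501.G.R_pool_sql_team_seeded_3997aac3.Q279.SC.J.STURM
import Pool.Agent.H501.G.R_pool_sql_team_seeded_3997aac3.Q279.SC.J.COREA
import Pool.Agent.H501.G.R_pool_sql_team_seeded_3997aac3.Q279.SC.J.COREB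
import Pool.Agent.H501.G.R_pool_sql_team_seeded_3997aac3.Q279.SC.J.AODE
import Pool.Agent.H501.G.R_pool_sql_team_seeded_3997aac3.Q279.SC.J.SIMPLE
import Pool.Agent.H501.G.R_pool_sql_team_seeded_3997aac3.Q279.SC.J.HS1
import Pool.Agent.H501.G.R_pool_sql_team_seeded_3997aac3.Q279.SC.J.HS2
import Pool.Agent.H501.G.R_pool_sql_team_seeded_3997aac3.Q279.SC.J.HS3
import Pool.Agent.H501.G.R_pool_sql_team_seeded_3997aac3.Q279.SC.J.COUNT
import Pool.Agent.H501.G.R_pool_sql_team_seeded_3997aac3.Q279.SC.J.SMALL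
import Pool.Agent.H501.G.R_pool_sql_team_seeded_3997aac3.Q279.SC.J.DUAL
import Pool.Agent.H501.G.R_pool_sql_team_seeded_3997aac3.Q237.SX.Ram2
import Pool.Agent.H501.G.R_pool_sql_team_seeded_3997aac3.Q237.SX.Struct
import Pool.Agent.H501.G.R_pool_sql_team_seeded_3997aac3.Q237.SX.Eis
import Pool.Agent.H501.G.R_pool_sql_team_seeded_3997aac3.Q237.SX.Hecke

/-!
# The supersingular congruence for `E_4/(j - j(C))`: assembly of the lemmas

Lemmas by helper63, helper237, helper298 and helper224.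
-/

set_option autoImplicit false

namespace Pool.Agent.Q279.SC

open _root_.Q279.FB

theorem ram' : Ram := Pool.Agent.Q237.SX.ram
theorem der' : DerF := JDER.main ram'
theorem sturm' : Sturm := JSTURM.main ram'
theorem coreA' : CoreA := JCOREA.main JFR.main JFRP.main ram' der' sturm'
theorem coreB' : CoreB := JCOREB.main ram' der' sturm'
theorem aode' : AOde := JAODE.main ram' der' sturm'
theorem hs3' : Hs3 := JHS3.main ram' der' sturm' JHS1.main JHS2.main
theorem dual' : Dual := JDUAL.main ram'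

theorem all (C : WeierstrassCurve ℚ) [C.IsElliptic] (hj0 : C.j ≠ 0) (hj1 : C.j ≠ 1728)
    (p : ℕ) (hp : p.Prime) (W : WeierstrassCurve ℤ) (hW : GoodModel C p W)
    (hss : (p : ℤ) ∣ Q279.FB.ap W p) (h0 : padicValRat p C.j = 0)
    (h1 : padicValRat p (C.j - 1728) = 0) : CongrZero p 2 (a (F 4 1 C.j) p) :=
  final JFR.main ram' Pool.Agent.Q237.SX.struct Pool.Agent.Q237.SX.eis
    Pool.Agent.Q237.SX.hecke coreA' coreB' aode' JSIMPLE.main hs3' JCOUNT.main JSMALL.main
    dual' C hj0 hj1 p hp W hW hss h0 h1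

end Pool.Agent.Q279.SC
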