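import Pool.Agent.H501.G.R_pool_sql_team_seeded_3997aac3.Q279.SC.Stm
import Pool.Agent.H501.G.R_pool_sql_team_seeded_3997aac3.Q279.FB.Main

/-!
# Project SC: assembly from the lemma jobs
-/

set_option autoImplicit false

namespace Pool.Agent.Q279.SC

open PowerSeries

noncomputable section

/-! ### naturality -/

theorem map_map' {R S : Type} [CommRing R] [CommRing S] (φ : R →+* S) (f : ℤ⟦X⟧) :
    PowerSeries.map φ (PowerSeries.map (Int.castRingHom R) f) =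
      PowerSeries.map (Int.castRingHom S) f := by
  ext n
  simp

theorem map_q4 {R S : Type} [CommRing R] [CommRing S] (φ : R →+* S) :
    PowerSeries.map φ (q4 R) = q4 S := map_map' φ z4

theorem map_q6 {R S : Type} [CommRing R] [CommRing S] (φ : R →+* S) :
    PowerSeries.map φ (q6 R) = q6 S := map_map' φ z6

theorem map_ev {R S : Type} [CommRing R] [CommRing S] (φ : R →+* S) (F : P2 R) :
    PowerSeries.map φ (ev R F) = ev S (MvPolynomial.map φ F) := by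
  have h : (PowerSeries.map φ).comp (ev R) = (ev S).comp (MvPolynomial.map φ) := by
    apply MvPolynomial.ringHom_ext
    · intro r
      simp [ev]
    · intro i
      fin_cases i
      · simp [ev, map_q4]
      · simp [ev, map_q6]
  exact RingHom.congr_fun h F

theorem iso_map {R S : Type} [CommRing R] [CommRing S] (φ : R →+* S) {F : P2 R} {w : ℕ}
    (h : Iso F w) : Iso (MvPolynomial.map φ F) w := by
  intro d hd
  apply h
  intro h0
  apply hd
  rw [MvPolynomial.coeff_map, h0, map_zero]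

theorem at2_map {R S : Type} [CommRing R] [CommRing S] (φ : R →+* S) (F : P2 R) (x y : R) :
    at2 (φ x) (φ y) (MvPolynomial.map φ F) = φ (at2 x y F) := by
  have h : (MvPolynomial.eval ![φ x, φ y]).comp (MvPolynomial.map φ) =
      φ.comp (MvPolynomial.eval ![x, y]) := by
    apply MvPolynomial.ringHom_ext
    · intro r
      simp
    · intro i
      fin_cases i <;> simp
  exact RingHom.congr_fun h F

/-! ### the link with `F 4 1 j0` -/

theorem z4_eq : z4 = Q279.FB.z4 := rfl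
theorem zD_eq : zD = Q279.FB.zD := rfl

/-- The coefficient of `E_4/(j - c)` in terms of a `p`-adic power series. -/
theorem link (hRam : Ram) (p : ℕ) [Fact p.Prime] (c : ℚ) (c' : ℤ_[p]) (Φ : ℤ_[p]⟦X⟧)
    (hc : (c' : ℚ_[p]) = (c : ℚ_[p]))
    (hΦ : Φ * (q4 ℤ_[p] ^ 3 - C c' * qD ℤ_[p]) = q4 ℤ_[p] * qd ℤ_[p]) (m : ℕ) :
    (((Q279.FB.F 4 1 c).coeff ((m + 1 : ℕ) : ℤ) : ℚ) : ℚ_[p]) =
      ((coeff m Φ : ℤ_[p]) : ℚ_[p]) := by
  classical
  -- power series over ℚ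
  have hp := (Fact.out : p.Prime)
  set κ : ℤ →+* ℚ := Int.castRingHom ℚ with hκ
  set T : ℚ⟦X⟧ := PowerSeries.map κ z4 ^ 3 - C c * PowerSeries.map κ zD with hT
  have hz40 : constantCoeff z4 = 1 := by
    simp [z4, zA]
  have hzD0 : constantCoeff zD = 0 := by
    rw [hRam.2.1]; simp
  have hT0 : constantCoeff T = 1 := by
    rw [hT, map_sub, map_mul, map_pow]
    rw [show constantCoeff (PowerSeries.map κ z4) = κ (constantCoeff z4) from rfl,
      show constantCoeff (PowerSeries.map κ zD) = κ (constantCoeff zD) from rfl, hz40, hzD0]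
    simp
  have hTT : T * T⁻¹ = 1 := PowerSeries.mul_inv_cancel _ (by rw [hT0]; exact one_ne_zero)
  -- the Laurent series is X * Ψ
  set Ψ : ℚ⟦X⟧ := PowerSeries.map κ z4 * PowerSeries.map κ zd * T⁻¹ with hΨ
  have hzD : PowerSeries.map κ zD = X * PowerSeries.map κ zd := by
    rw [hRam.2.1, map_mul, PowerSeries.map_X]
  have hzdne : (PowerSeries.map κ zd : ℚ⟦X⟧) ≠ 0 := by
    intro h
    have := congrArg (constantCoeff (R := ℚ)) h
    rw [show constantCoeff (PowerSeries.map κ zd) = κ (constantCoeff zd) from rfl,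
      hRam.2.2.1] at this
    simp at this
  have hF : Q279.FB.F 4 1 c = ((X * Ψ : ℚ⟦X⟧) : LaurentSeries ℚ) := by
    unfold Q279.FB.F Q279.FB.j
    have e4 : Q279.FB.E 4 = PowerSeries.map κ z4 := Q279.FB.E4_eq
    have eD : Q279.FB.Delta = PowerSeries.map κ zD := Q279.FB.Delta_eq
    rw [e4, eD, pow_one]
    set a : LaurentSeries ℚ := ((PowerSeries.map κ z4 : ℚ⟦X⟧) : LaurentSeries ℚ) with ha
    set b : LaurentSeries ℚ := ((PowerSeries.map κ zD : ℚ⟦X⟧) : LaurentSeries ℚ) with hb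
    have hb0 : b ≠ 0 := by
      rw [hb]
      intro h
      have h1 : (PowerSeries.map κ zD : ℚ⟦X⟧) = 0 := by
        have := HahnSeries.ofPowerSeries_injective (Γ := ℤ) (R := ℚ)
          (a₁ := PowerSeries.map κ zD) (a₂ := 0) (by simpa using h)
        exact this
      rw [hzD] at h1
      rcases mul_eq_zero.1 h1 with h2 | h2
      · exact PowerSeries.X_ne_zero h2
      · exact hzdne h2
    have hTl : ((T : ℚ⟦X⟧) : LaurentSeries ℚ) = a ^ 3 - HahnSeries.C c * b := by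
      rw [hT]
      have h1 : ((C c : ℚ⟦X⟧) : LaurentSeries ℚ) = HahnSeries.C c := by
        simp [HahnSeries.ofPowerSeries_C]
      push_cast
      rw [h1]
    have hT1 : ((T : ℚ⟦X⟧) : LaurentSeries ℚ) ≠ 0 := by
      intro h
      have h1 := HahnSeries.ofPowerSeries_injective (Γ := ℤ) (R := ℚ)
          (a₁ := T) (a₂ := 0) (by simpa using h)
      rw [h1] at hT0
      simp at hT0
    have hX : ((X * Ψ : ℚ⟦X⟧) : LaurentSeries ℚ) * ((T : ℚ⟦X⟧) : LaurentSeries ℚ) = a * b := by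
      rw [ha, hb, ← PowerSeries.coe_mul, ← PowerSeries.coe_mul, hzD, hΨ]
      congr 1
      calc X * (PowerSeries.map κ z4 * PowerSeries.map κ zd * T⁻¹) * T
          = PowerSeries.map κ z4 * (X * PowerSeries.map κ zd) * (T * T⁻¹) := by ring
        _ = _ := by rw [hTT, mul_one]
    have h2 : a ^ 3 / b - HahnSeries.C c = ((T : ℚ⟦X⟧) : LaurentSeries ℚ) / b := by
      rw [hTl]
      field_simp
    rw [h2, div_div_eq_mul_div, div_eq_iff hT1, ← hX]
  have hcoef : (Q279.FB.F 4 1 c).coeff ((m + 1 : ℕ) : ℤ) = coeff m Ψ := by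
    rw [hF]
    have := PowerSeries.coeff_coe (R := ℚ) (X * Ψ) ((m + 1 : ℕ) : ℤ)
    rw [this, if_neg (by omega)]
    have h1 : ((m + 1 : ℕ) : ℤ).natAbs = m + 1 := by omega
    rw [h1, coeff_succ_X_mul]
  rw [hcoef]
  -- compare over ℚ_p
  set μ : ℚ →+* ℚ_[p] := Rat.castHom ℚ_[p]
  set ν : ℤ_[p] →+* ℚ_[p] := PadicInt.Coe.ringHom
  have key : PowerSeries.map μ Ψ = PowerSeries.map ν Φ := by
    have hμT : PowerSeries.map μ T ≠ 0 := by
      intro h
      have := congrArg (constantCoeff (R := ℚ_[p])) h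
      rw [show constantCoeff (PowerSeries.map μ T) = μ (constantCoeff T) from rfl, hT0] at this
      simp at this
    have e1 : PowerSeries.map μ Ψ * PowerSeries.map μ T = q4 ℚ_[p] * qd ℚ_[p] := by
      rw [← map_mul]
      have : Ψ * T = PowerSeries.map κ z4 * PowerSeries.map κ zd := by
        rw [hΨ, mul_assoc, mul_comm T⁻¹ T, hTT, mul_one]
      rw [this, map_mul]
      unfold q4 qd
      rw [map_map', map_map']
    have e2 : PowerSeries.map ν Φ * PowerSeries.map μ T = q4 ℚ_[p] * qd ℚ_[p] := by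
      have h1 := congrArg (PowerSeries.map ν) hΦ
      rw [map_mul, map_mul] at h1
      have h2 : PowerSeries.map ν (q4 ℤ_[p] ^ 3 - C c' * qD ℤ_[p]) = PowerSeries.map μ T := by
        rw [hT, map_sub, map_sub, map_pow, map_pow, map_mul, map_mul, PowerSeries.map_C,
          PowerSeries.map_C]
        have h3 : ν c' = μ c := hc
        rw [h3]
        unfold q4 qD
        rw [map_map', map_map', map_map', map_map']
      rw [h2] at h1
      rw [h1]
      unfold q4 qd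
      rw [map_map', map_map']
    exact mul_right_cancel₀ hμT (e1.trans e2.symm)
  have := congrArg (coeff m) key
  rw [PowerSeries.coeff_map, PowerSeries.coeff_map] at this
  exact this

/-! ### the congruence for `p ≥ 5` -/

theorem fr_one_add {R : Type} [CommRing R] {p : ℕ} (hp : p.Prime) (f : R⟦X⟧)
    (h : constantCoeff f = 1) : X ^ p ∣ fr p f - 1 := by
  rw [PowerSeries.X_pow_dvd_iff]
  intro m hm
  rw [map_sub, fr, coeff_mk]
  rcases Nat.eq_zero_or_pos m with rfl | h0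
  · simp [h]
  · rw [if_neg (fun hd => absurd (Nat.le_of_dvd h0 hd) (by omega))]
    rw [coeff_one, if_neg (by omega)]
    simp

theorem core (hFr : FrF) (hRam : Ram) (hStr : Struct) (hEis : Eis) (hHe : Hecke) (hCA : CoreA)
    (hCB : CoreB) (hAO : AOde) (hSi : Simple) (hH3 : Hs3) (hCo : Count) (hDu : Dual)
    (p : ℕ) [Fact p.Prime] (hp5 : 5 ≤ p) (W : WeierstrassCurve ℤ) (hW : ¬ (p : ℤ) ∣ W.Δ)
    (hs' : (p : ℤ) ∣ ap W p) (h4 : ¬ (p : ℤ) ∣ W.c₄) (h6 : ¬ (p : ℤ) ∣ W.c₆)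
    (c : ℤ_[p]) (hc : c * (W.Δ : ℤ_[p]) = (W.c₄ : ℤ_[p]) ^ 3) (Φ : ℤ_[p]⟦X⟧)
    (hΦ : Φ * (q4 ℤ_[p] ^ 3 - C c * qD ℤ_[p]) = q4 ℤ_[p] * qd ℤ_[p]) :
    (p : ℤ_[p]) ^ 2 ∣ coeff (p - 1) Φ := by
  have hp := (Fact.out : p.Prime)
  obtain ⟨T, ε, hT1, hT2, hT3⟩ := hEis p hp5
  obtain ⟨n, U, hn, F, hF⟩ := hHe p hp hp5
  obtain ⟨N, hN1, hN2⟩ := hStr p hp5 (6 * p - 1) F (fun m => ((coeff m n : ℤ) : ℚ))
    (fun m => by rw [hF m]; push_cast; rfl)
    (fun m => by
      have h := PadicInt.norm_le_one ((coeff m n : ℤ) : ℤ_[p])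
      rw [PadicInt.norm_def] at h
      push_cast at h ⊢
      exact h)
  have hevN : ev ℤ_[p] N = PowerSeries.map (Int.castRingHom ℤ_[p]) n := by
    ext m
    have h := hN2 m
    have h1 : ((coeff m (ev ℤ_[p] N) : ℤ_[p]) : ℚ_[p]) =
        (((coeff m n : ℤ) : ℤ_[p]) : ℚ_[p]) := by
      rw [h]; push_cast; rfl
    rw [PowerSeries.coeff_map]
    exact Subtype.ext h1
  have hfrm := (hFr p hp ℤ).2.2.2.2.2 ℤ_[p] (Int.castRingHom ℤ_[p])
  -- the equation over ℤ_p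
  have hnp : ev ℤ_[p] N * fr p (qd ℤ_[p]) = qd ℤ_[p] ^ p * fr p (q4 ℤ_[p] * q6 ℤ_[p]) +
      (p : ℤ_[p]⟦X⟧) ^ 3 * X ^ p * PowerSeries.map (Int.castRingHom ℤ_[p]) U := by
    have h := congrArg (PowerSeries.map (Int.castRingHom ℤ_[p])) hn
    rw [map_mul, map_add, map_mul, map_mul, map_mul, map_pow, map_pow, map_pow, ← hfrm, ← hfrm,
      map_mul, map_natCast, PowerSeries.map_X] at h
    rw [hevN]
    exact h
  have hFrp := hFr p hp ℤ_[p]
  have hqD : qD ℤ_[p] = X * qd ℤ_[p] := by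
    unfold qD qd
    rw [hRam.2.1, map_mul, PowerSeries.map_X]
  have hV : ev ℤ_[p] N * fr p (qD ℤ_[p]) =
      qD ℤ_[p] ^ p * fr p (q4 ℤ_[p] * q6 ℤ_[p]) + (p : ℤ_[p]⟦X⟧) ^ 2 *
        ((p : ℤ_[p]⟦X⟧) * X ^ p * X ^ p * PowerSeries.map (Int.castRingHom ℤ_[p]) U) := by
    rw [hqD, hFrp.1, hFrp.2.2.2.1]
    linear_combination X ^ p * hnp
  obtain ⟨G, hG1, hG2, hG3⟩ := hCA p hp5 T N ε _ hT1 hT2 hT3 hN1 hV
  -- reduction of T
  set A := redP p T with hA
  have hA1 : Iso A ((p - 1) / 2) := iso_map _ hT1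
  have hA2 : ev (ZMod p) A = 1 := by
    have h := map_ev (PadicInt.toZMod (p := p)) T
    rw [hT2, map_add, map_one, map_mul, map_natCast] at h
    have h0 : ((p : ℕ) : (ZMod p)⟦X⟧) = 0 := by
      have : ((p : ℕ) : (ZMod p)⟦X⟧) = C ((p : ℕ) : ZMod p) := (map_natCast C p).symm
      rw [this, ZMod.natCast_self, map_zero]
    rw [h0, zero_mul, add_zero] at h
    exact h.symm
  have hA0 : A ≠ 0 := by
    intro h
    rw [h, map_zero] at hA2
    exact zero_ne_one hA2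
  -- the point
  set x : ℤ_[p] := (W.c₄ : ℤ_[p])
  set y : ℤ_[p] := (W.c₆ : ℤ_[p])
  set D : ℤ_[p] := (W.Δ : ℤ_[p])
  have hnz : ∀ m : ℤ, ¬ (p : ℤ) ∣ m → ((m : ℤ) : ZMod p) ≠ 0 := fun m hm h =>
    hm ((ZMod.intCast_zmod_eq_zero_iff_dvd m p).1 h)
  have hunit : ∀ m : ℤ, ¬ (p : ℤ) ∣ m → IsUnit ((m : ℤ) : ℤ_[p]) := fun m hm => by
    rw [PadicInt.isUnit_iff]
    by_contra hne
    exact hm ((PadicInt.norm_int_lt_one_iff_dvd m).1
      (lt_of_le_of_ne (PadicInt.norm_le_one _) hne))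
  have hrel : 1728 * W.Δ = W.c₄ ^ 3 - W.c₆ ^ 2 := W.c_relation
  have hAz : at2 ((W.c₄ : ℤ) : ZMod p) ((W.c₆ : ℤ) : ZMod p) A = 0 := by
    obtain ⟨u, hu, hh⟩ := hH3 p hp5 A hA1 hA2
    have h := hCo p hp5 W hW hs'
    rw [hh] at h
    unfold at2 at h ⊢
    rw [map_mul, MvPolynomial.eval_C] at h
    exact (mul_eq_zero.1 h).resolve_left hu
  have hne : ((W.c₄ : ℤ) : ZMod p) ^ 3 ≠ ((W.c₆ : ℤ) : ZMod p) ^ 2 := by
    intro h
    have h1 := congrArg (Int.cast : ℤ → ZMod p) hrel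
    push_cast at h1
    rw [h, sub_self] at h1
    rcases mul_eq_zero.1 h1 with h2 | h2
    · have h3 : ((1728 : ℕ) : ZMod p) = 0 := by exact_mod_cast h2
      rw [ZMod.natCast_eq_zero_iff] at h3
      have h4 : p ∣ 2 ^ 6 * 3 ^ 3 := by norm_num; exact h3
      rcases (Nat.Prime.dvd_mul hp).1 h4 with h5 | h5
      · have := Nat.le_of_dvd (by norm_num) (hp.dvd_of_dvd_pow h5); omega
      · have := Nat.le_of_dvd (by norm_num) (hp.dvd_of_dvd_pow h5); omega
    · exact hnz _ hW h2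
  have hAO' := hAO p hp5 A hA1 hA2
  have hB := hSi p hp5 A hA1 hA0 hAO' _ _ (hnz _ h4) (hnz _ h6) hne hAz
  have hGz := hCB p hp5 A (redP p G) hA1 hA2 (iso_map _ hG1) hG3 _ _ hAz hB
  have hto : ∀ m : ℤ, PadicInt.toZMod (p := p) ((m : ℤ) : ℤ_[p]) = ((m : ℤ) : ZMod p) :=
    fun m => map_intCast _ m
  have hTp : (p : ℤ_[p]) ∣ at2 x y T := by
    have h := at2_map (PadicInt.toZMod (p := p)) T x y
    rw [hto, hto] at h
    have h1 : PadicInt.toZMod (at2 x y T) = 0 := by rw [← h]; exact hAz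
    have h2 : at2 x y T ∈ RingHom.ker (PadicInt.toZMod (p := p)) := h1
    rw [PadicInt.ker_toZMod, PadicInt.maximalIdeal_eq_span_p, Ideal.mem_span_singleton] at h2
    exact h2
  have hGp : (p : ℤ_[p]) ∣ at2 x y G := by
    have h := at2_map (PadicInt.toZMod (p := p)) G x y
    rw [hto, hto] at h
    have h1 : PadicInt.toZMod (at2 x y G) = 0 := by rw [← h]; exact hGz
    have h2 : at2 x y G ∈ RingHom.ker (PadicInt.toZMod (p := p)) := h1
    rw [PadicInt.ker_toZMod, PadicInt.maximalIdeal_eq_span_p, Ideal.mem_span_singleton] at h2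
    exact h2
  have hNp : (p : ℤ_[p]) ^ 2 ∣ at2 x y N := by
    rw [hG2]
    unfold at2 at hTp hGp ⊢
    rw [map_add, map_mul, map_mul, map_pow, map_natCast]
    exact dvd_add (Dvd.dvd.mul_right (pow_dvd_pow_of_dvd hTp 2) _)
      (by rw [pow_two]; exact mul_dvd_mul_left _ hGp)
  -- duality
  have hX : X ^ p ∣ ev ℤ_[p] N - qd ℤ_[p] ^ p := by
    have hc1 : ∀ f : ℤ⟦X⟧, constantCoeff f = 1 →
        constantCoeff (PowerSeries.map (Int.castRingHom ℤ_[p]) f) = 1 := fun f hf => by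
      rw [show constantCoeff (PowerSeries.map (Int.castRingHom ℤ_[p]) f) =
        (Int.castRingHom ℤ_[p]) (constantCoeff f) from rfl, hf]; simp
    have h1 : X ^ p ∣ fr p (qd ℤ_[p]) - 1 := fr_one_add hp _ (hc1 _ hRam.2.2.1)
    have h2 : X ^ p ∣ fr p (q4 ℤ_[p] * q6 ℤ_[p]) - 1 := by
      apply fr_one_add hp
      rw [map_mul]
      unfold q4 q6
      rw [hc1 z4 (by simp [z4, zA]), hc1 z6 (by simp [z6, zB]), one_mul]
    obtain ⟨r, hr⟩ := h1
    obtain ⟨s, hs1⟩ := h2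
    have h3 : fr p (qd ℤ_[p]) = 1 + X ^ p * r := by rw [← hr]; ring
    have h4' : fr p (q4 ℤ_[p] * q6 ℤ_[p]) = 1 + X ^ p * s := by rw [← hs1]; ring
    rw [h3, h4'] at hnp
    refine ⟨qd ℤ_[p] ^ p * s + (p : ℤ_[p]⟦X⟧) ^ 3 *
      PowerSeries.map (Int.castRingHom ℤ_[p]) U - ev ℤ_[p] N * r, ?_⟩
    linear_combination hnp
  have hDne : D ≠ 0 := (hunit _ hW).ne_zero
  have hdual := hDu p hp5 N hN1 hX x y D c Φ (by
    have h1 := congrArg (Int.cast : ℤ → ℤ_[p]) hrel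
    push_cast at h1
    exact h1) hc hDne hΦ
  rw [hdual] at hNp
  have hu : IsUnit (x * y * D ^ (p - 1)) :=
    ((hunit _ h4).mul (hunit _ h6)).mul ((hunit _ hW).pow _)
  exact (hu.dvd_mul_left).1 hNp

/-! ### the final statement -/

open Q279.FB (GoodModel CongrZero a F)

theorem final (hFr : FrF) (hRam : Ram) (hStr : Struct) (hEis : Eis) (hHe : Hecke) (hCA : CoreA)
    (hCB : CoreB) (hAO : AOde) (hSi : Simple) (hH3 : Hs3) (hCo : Count) (hSm : Small)
    (hDu : Dual) :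
    ∀ (C : WeierstrassCurve ℚ) [C.IsElliptic], C.j ≠ 0 → C.j ≠ 1728 →
      ∀ p : ℕ, p.Prime → ∀ W : WeierstrassCurve ℤ, GoodModel C p W →
        (p : ℤ) ∣ Q279.FB.ap W p → padicValRat p C.j = 0 → padicValRat p (C.j - 1728) = 0 →
          CongrZero p 2 (a (F 4 1 C.j) p) := by
  intro E _ hj0 hj1 p hp W hW hss hv0 hv1
  haveI : Fact p.Prime := ⟨hp⟩
  obtain ⟨⟨v, hv⟩, hgood⟩ := hW
  -- the j-invariant
  have hc4 : (v • E).c₄ = (W.c₄ : ℚ) := by
    rw [hv, WeierstrassCurve.map_c₄]; rfl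
  have hΔ : (v • E).Δ = (W.Δ : ℚ) := by
    rw [hv, WeierstrassCurve.map_Δ]; rfl
  have hΔ0 : (W.Δ : ℚ) ≠ 0 := by
    intro h
    apply hgood
    have : W.Δ = 0 := by exact_mod_cast h
    rw [this]; exact dvd_zero _
  have hj : E.j * (W.Δ : ℚ) = (W.c₄ : ℚ) ^ 3 := by
    have h1 : (v • E).j = E.j := WeierstrassCurve.variableChange_j E v
    rw [← h1, WeierstrassCurve.j, ← hΔ, ← hc4]
    have h2 : ((v • E).Δ'⁻¹ : ℚˣ) * (v • E).Δ = (1 : ℚ) := by
      rw [← WeierstrassCurve.coe_Δ']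
      exact Units.inv_mul _
    linear_combination (v • E).c₄ ^ 3 * h2
  have hrel : (1728 : ℚ) * (W.Δ : ℚ) = (W.c₄ : ℚ) ^ 3 - (W.c₆ : ℚ) ^ 2 := by
    exact_mod_cast W.c_relation
  have hj' : (E.j - 1728) * (W.Δ : ℚ) = (W.c₆ : ℚ) ^ 2 := by
    linear_combination hj - hrel
  have hvΔ : padicValRat p (W.Δ : ℚ) = 0 := by
    rw [padicValRat.of_int]
    exact_mod_cast padicValInt.eq_zero_of_not_dvd hgood
  have hc40 : (W.c₄ : ℚ) ≠ 0 := by
    intro h
    rw [h] at hj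
    have : E.j * (W.Δ : ℚ) = 0 := by rw [hj]; norm_num
    rcases mul_eq_zero.1 this with h1 | h1
    · exact hj0 h1
    · exact hΔ0 h1
  have hc60 : (W.c₆ : ℚ) ≠ 0 := by
    intro h
    rw [h] at hj'
    have : (E.j - 1728) * (W.Δ : ℚ) = 0 := by rw [hj']; norm_num
    rcases mul_eq_zero.1 this with h1 | h1
    · exact hj1 (sub_eq_zero.1 h1)
    · exact hΔ0 h1
  have h4 : ¬ (p : ℤ) ∣ W.c₄ := by
    intro hd
    have h1 := congrArg (padicValRat p) hj
    rw [padicValRat.mul hj0 hΔ0, padicValRat.pow, hv0, hvΔ, padicValRat.of_int] at h1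
    have h2 : 1 ≤ padicValInt p W.c₄ := by
      have h3 : W.c₄ ≠ 0 := by exact_mod_cast hc40
      exact (padicValInt_dvd_iff 1 W.c₄).1 (by simpa using hd) |>.resolve_left h3
    push_cast at h1
    omega
  have h6 : ¬ (p : ℤ) ∣ W.c₆ := by
    intro hd
    have h1 := congrArg (padicValRat p) hj'
    rw [padicValRat.mul (sub_ne_zero.2 hj1) hΔ0, padicValRat.pow, hv1, hvΔ,
      padicValRat.of_int] at h1
    have h2 : 1 ≤ padicValInt p W.c₆ := by
      have h3 : W.c₆ ≠ 0 := by exact_mod_cast hc60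
      exact (padicValInt_dvd_iff 1 W.c₆).1 (by simpa using hd) |>.resolve_left h3
    push_cast at h1
    omega
  have hp5 : 5 ≤ p := by
    by_contra hlt
    have h23 : p = 2 ∨ p = 3 := by
      have h2 := hp.two_le
      have h3 : p < 5 := by omega
      interval_cases p
      · exact Or.inl rfl
      · exact Or.inr rfl
      · exact absurd hp (by norm_num)
    exact h4 (hSm p h23 W hgood hss)
  -- the p-adic integer c
  have hunitΔ : IsUnit ((W.Δ : ℤ) : ℤ_[p]) := by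
    rw [PadicInt.isUnit_iff]
    by_contra hne
    exact hgood ((PadicInt.norm_int_lt_one_iff_dvd W.Δ).1
      (lt_of_le_of_ne (PadicInt.norm_le_one _) hne))
  obtain ⟨d, hd⟩ := hunitΔ.exists_right_inv
  set c : ℤ_[p] := (W.c₄ : ℤ_[p]) ^ 3 * d with hcdef
  have hcD : c * (W.Δ : ℤ_[p]) = (W.c₄ : ℤ_[p]) ^ 3 := by
    rw [hcdef]; linear_combination (W.c₄ : ℤ_[p]) ^ 3 * hd
  have hcc : (c : ℚ_[p]) = ((E.j : ℚ) : ℚ_[p]) := by
    have h1 : (c : ℚ_[p]) * (W.Δ : ℚ_[p]) = (W.c₄ : ℚ_[p]) ^ 3 := by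
      have := congrArg (PadicInt.Coe.ringHom (p := p)) hcD
      rw [map_mul, map_pow, map_intCast, map_intCast] at this
      exact this
    have h2 : ((E.j : ℚ) : ℚ_[p]) * (W.Δ : ℚ_[p]) = (W.c₄ : ℚ_[p]) ^ 3 := by
      have := congrArg (Rat.cast : ℚ → ℚ_[p]) hj
      push_cast at this
      exact this
    have h3 : (W.Δ : ℚ_[p]) ≠ 0 := by
      exact_mod_cast (fun h => hΔ0 (by exact_mod_cast h) : W.Δ ≠ 0)
    exact mul_right_cancel₀ h3 (h1.trans h2.symm)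
  -- the series
  have hT0 : constantCoeff (q4 ℤ_[p] ^ 3 - C c * qD ℤ_[p]) = 1 := by
    have hz40 : constantCoeff (q4 ℤ_[p]) = 1 := by
      rw [show constantCoeff (q4 ℤ_[p]) = (Int.castRingHom ℤ_[p]) (constantCoeff z4) from rfl,
        show constantCoeff z4 = 1 by simp [z4, zA], map_one]
    have hzD0 : constantCoeff (qD ℤ_[p]) = 0 := by
      rw [show constantCoeff (qD ℤ_[p]) = (Int.castRingHom ℤ_[p]) (constantCoeff zD) from rfl,
        hRam.2.1]
      simp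
    rw [map_sub, map_pow, map_mul, hz40, hzD0]
    simp
  have hinv : (q4 ℤ_[p] ^ 3 - C c * qD ℤ_[p]) *
      invOfUnit (q4 ℤ_[p] ^ 3 - C c * qD ℤ_[p]) 1 = 1 :=
    mul_invOfUnit _ 1 (by rw [hT0]; simp)
  set Φ : ℤ_[p]⟦X⟧ := q4 ℤ_[p] * qd ℤ_[p] * invOfUnit (q4 ℤ_[p] ^ 3 - C c * qD ℤ_[p]) 1
  have hΦ : Φ * (q4 ℤ_[p] ^ 3 - C c * qD ℤ_[p]) = q4 ℤ_[p] * qd ℤ_[p] := by
    linear_combination (q4 ℤ_[p] * qd ℤ_[p]) * hinv
  have hdvd := core hFr hRam hStr hEis hHe hCA hCB hAO hSi hH3 hCo hDu p hp5 W hgood hss h4 h6 c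
    hcD Φ hΦ
  have hlink := link hRam p E.j c Φ hcc hΦ (p - 1)
  have hpp : p - 1 + 1 = p := by omega
  rw [hpp] at hlink
  rw [Q279.FB.a_nat]
  set t : ℚ := (F 4 1 E.j).coeff (p : ℤ) with ht
  rcases eq_or_ne t 0 with h0 | h0
  · exact Or.inl h0
  right
  obtain ⟨s, hs⟩ := hdvd
  have hnorm : ‖((t : ℚ) : ℚ_[p])‖ ≤ (p : ℝ) ^ (-2 : ℤ) := by
    rw [hlink, hs]
    push_cast
    rw [norm_mul, norm_pow, Padic.norm_p]
    have h1 : ‖((s : ℤ_[p]) : ℚ_[p])‖ ≤ 1 := s.2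
    have h2 : ((p : ℝ)⁻¹) ^ 2 = (p : ℝ) ^ (-2 : ℤ) := by
      rw [zpow_neg, inv_pow]; norm_cast
    rw [h2]
    exact mul_le_of_le_one_right (by positivity) h1
  rw [Padic.eq_padicNorm, padicNorm.eq_zpow_of_nonzero h0] at hnorm
  push_cast at hnorm
  have hp1 : (1 : ℝ) < p := by exact_mod_cast hp.one_lt
  have := (zpow_le_zpow_iff_right₀ hp1).1 hnorm
  omega

end

end Pool.Agent.Q279.SC
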